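import Pool.Agent.Helper50.HY.Stmts
import Pool.Agent.Helper7.PN.HLOC

/-! Sheet HY, row CLS: localized Coulomb inequality with the sharp constant. -/

set_option autoImplicit false

namespace Pool.Agent.Helper17.HY

open MeasureTheory Filter Pool.Agent.Helper95 Pool.Agent.Helper95.PW Pool.Agent.Helper95.LN
open Pool.Agent.Helper50.HY

theorem CLS (h1 : ST_IMS) (h2 : ST_HAC) : ST_CLS := by
  obtain ⟨C, hC, H⟩ := h1
  refine ⟨C, hC, ?_⟩
  intro n M X d l u hd hl hS hu
  have hw := fun (s : Fin n → Fin 2) (k : Fin n) => H n M k X d (u s) hd hS (hu s).1 (hu s).2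
  choose w w1 w2 w3 w4 using hw
  obtain ⟨p, hp⟩ : ∃ p : (Fin n → Fin 2) → Fin n → Fin M → Cf n → ℝ, p = fun s k j x =>
    Set.indicator {x : Cf n | nr (x k - X j) < d}
      (fun x => w s k j x ^ 2 / nr (x k - X j)) x := ⟨_, rfl⟩
  have hmeas : ∀ (k : Fin n) (j : Fin M), MeasurableSet {x : Cf n | nr (x k - X j) < d} := by
    intro k j
    have : Continuous fun x : Cf n => nr (x k - X j) := hl_nrc.comp (by fun_prop)
    exact (isOpen_lt this continuous_const).measurableSet
  have hpi : ∀ s k j, Integrable (p s k j) := by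
    intro s k j
    rw [hp]
    exact (h2 n k (X j) _ l (w1 s k j).1 (w1 s k j).2 hl).1.indicator (hmeas k j)
  have hpe : ∀ s x, (∑ k, near1 X d (x k)) * u s x ^ 2 = ∑ k, ∑ j, p s k j x := by
    intro s x
    rw [Finset.sum_mul]
    refine Finset.sum_congr rfl fun k _ => ?_
    unfold near1
    rw [Finset.sum_mul]
    refine Finset.sum_congr rfl fun j _ => ?_
    rw [hp]
    simp only
    by_cases h : nr (x k - X j) < d
    · rw [if_pos h, Set.indicator_of_mem (show x ∈ {x : Cf n | nr (x k - X j) < d} from h),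
        w2 s k j x h]
      ring
    · rw [if_neg h, Set.indicator_of_notMem (show x ∉ {x : Cf n | nr (x k - X j) < d} from h)]
      ring
  have hpb : ∀ s k j, l * ∫ x, p s k j x ≤ (∫ x, ∑ i, dv k i (w s k j) x ^ 2) +
      l ^ 2 / 4 * ∫ x, w s k j x ^ 2 := by
    intro s k j
    obtain ⟨a1, a2⟩ := h2 n k (X j) _ l (w1 s k j).1 (w1 s k j).2 hl
    refine le_trans (mul_le_mul_of_nonneg_left (integral_mono (hpi s k j) a1 fun x => ?_) hl) a2
    rw [hp]
    exact Set.indicator_le_self' (fun _ _ => div_nonneg (sq_nonneg _) (hl_nr0 _)) x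
  have hkk : ∀ s k, l * ∑ j, ∫ x, p s k j x ≤
      (∑ i, ∫ x, dv k i (u s) x ^ 2) + (l ^ 2 / 4 + C / d ^ 2) * ∫ x, u s x ^ 2 := by
    intro s k
    have hDi : ∀ i, Integrable (fun x => dv k i (u s) x ^ 2) := fun i =>
      hl_dvi k i (hu s).1 (hu s).2
    have e1 : (∫ x, ∑ i, dv k i (u s) x ^ 2) = ∑ i, ∫ x, dv k i (u s) x ^ 2 :=
      integral_finsetSum _ fun i _ => hDi i
    have b3 := w3 s k
    have b4 := mul_le_mul_of_nonneg_left (w4 s k) (show 0 ≤ l ^ 2 / 4 by positivity)
    rw [e1] at b3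
    calc l * ∑ j, ∫ x, p s k j x = ∑ j, l * ∫ x, p s k j x := Finset.mul_sum _ _ _
      _ ≤ ∑ j, ((∫ x, ∑ i, dv k i (w s k j) x ^ 2) + l ^ 2 / 4 * ∫ x, w s k j x ^ 2) :=
          Finset.sum_le_sum fun j _ => hpb s k j
      _ = (∑ j, ∫ x, ∑ i, dv k i (w s k j) x ^ 2) + l ^ 2 / 4 * ∑ j, ∫ x, w s k j x ^ 2 := by
          rw [Finset.sum_add_distrib, Finset.mul_sum]
      _ ≤ (∑ i, ∫ x, dv k i (u s) x ^ 2) + (l ^ 2 / 4 + C / d ^ 2) * ∫ x, u s x ^ 2 := by
          linarith
  refine ⟨fun s => ?_, ?_⟩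
  · have e : (fun x : Cf n => (∑ k, near1 X d (x k)) * u s x ^ 2) =
        fun x => ∑ k, ∑ j, p s k j x := funext fun x => hpe s x
    rw [e]
    exact integrable_finsetSum _ fun k _ => integrable_finsetSum _ fun j _ => hpi s k j
  · have e1 : one (near1 X d) u = ∑ s, ∑ k, ∑ j, ∫ x, p s k j x := by
      unfold one
      refine Finset.sum_congr rfl fun s _ => ?_
      rw [integral_congr_ae (Eventually.of_forall fun x => hpe s x), integral_finsetSum]
      · refine Finset.sum_congr rfl fun k _ => ?_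
        rw [integral_finsetSum]
        intro j _
        exact hpi s k j
      · intro k _
        exact integrable_finsetSum _ fun j _ => hpi s k j
    have e2 : ∑ s : Fin n → Fin 2, ∑ k : Fin n, ((∑ i, ∫ x, dv k i (u s) x ^ 2) +
        (l ^ 2 / 4 + C / d ^ 2) * ∫ x, u s x ^ 2) =
        kin u + (l ^ 2 / 4 + C / d ^ 2) * (n * PW.sq u) := by
      have e3 : kin u = ∑ s : Fin n → Fin 2, ∑ k : Fin n, ∑ i, ∫ x, dv k i (u s) x ^ 2 := by
        unfold kin PW.sq
        symm
        rw [Finset.sum_comm]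
        refine Finset.sum_congr rfl fun k _ => ?_
        exact Finset.sum_comm
      rw [e3]
      unfold PW.sq
      simp only [Finset.sum_add_distrib, Finset.sum_const, Finset.card_univ, Fintype.card_fin,
        nsmul_eq_mul, ← Finset.mul_sum]
      ring
    rw [e1, ← e2]
    simp only [Finset.mul_sum]
    refine Finset.sum_le_sum fun s _ => Finset.sum_le_sum fun k _ => ?_
    have := hkk s k
    rw [Finset.mul_sum] at this
    simpa only [Finset.mul_sum] using this

end Pool.Agent.Helper17.HY
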